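import Pool.Agent.H35.CI.FM

/-!
# The strong motivic monodromy conjecture for flags of smooth complete intersections

Let `f_0, …, f_(r-1)` be forms in `n` variables of degrees `2 ≤ d_0 ≤ … ≤ d_(r-1)`, which may be
different, such that every one of the schemes `f_0 = … = f_o = 0` is a smooth complete intersection in
the projective space (or is empty): the gradients of `f_0, …, f_o` are linearly independent at all their
common zeros `p ≠ 0` (`Flag f`). Then the ideal `(f_0, …, f_(r-1))` satisfies the strong motivic
monodromy conjecture at the origin: its local motivic zeta function, defined with jets, is in the ring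
generated over `𝓜` by `T` and the `1 / (1 - 𝕃 ^ (-ν_o) T ^ (d_o))`, with
`ν_o = n + ∑_(j ≤ o) (d_o - d_j)`, and by `1 / (1 - 𝕃 ^ (-r) T)` if `r < n`; and all the `-ν_o / d_o`,
and `-r` if `r < n`, are roots of every polynomial `b` which satisfies a local functional equation of
Budur, Mustaţă and Saito for the `f_j` at the origin (for instance the local Bernstein-Sato polynomial of
the ideal). If `r > n` only the first `n` indices `o` are used.

The ideal is not homogeneous in the sense that its generators have the same degree, and `-ν_o / d_o`
are the contributions of the divisors of several weighted blow-ups of the space of the graph; the roots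
other than the largest one are not given by the minimal exponent.

Method. *Zeta function.* Volumes of sets of arcs on which `f_j` has order at least `N_j`, with different
thresholds: the arcs through the origin are `t · γ`, and `f_j (t · γ) = t ^ (d_j) f_j (γ)` lowers the
thresholds by `d_j`; the arcs with `γ(0) ≠ 0` are counted level by level with the independent gradients
of the `f_j` with `N_j > 0`, which are `f_0, …, f_o` for some `o`. The sum over the number of steps
is rational with the stated denominators.
*Roots.* If `b(-ν_o/d_o) ≠ 0`, a functional equation gives, by a filtration argument in the module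
generated by `δ(t - f)`, that the class of `δ(f_0) ⋯ δ(f_(o-1)) f_o ^ s`, `s = -(n - ∑_(j < o) d_j)/d_o`,
is a sum of derivatives. The order of the poles along `f_0, …, f_(o-1)` is lowered with the Koszul
relations, which gives a form on the cone `f_0 = … = f_(o-1) = 0`; then the order of the pole along
`f_o` is lowered with the division lemma of K. Saito for the differentials of `f_0, …, f_o` (proved
here, with the depth of the ideal of the minors) and with the contraction by the Euler field. At the end
`dx_1 ⋯ dx_n` would be in the ideal generated by the `d f_j`, which is wrong as `d_o ≥ 2`.
-/

set_option autoImplicit false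

namespace Pool.Agent.Results.MP_4e5fcd_ag.FlagsOfForms

open MvPolynomial Pool.Agent.H35.CI
open Pool.Agent.Q49.CO (StrongMC)

/-- **The strong motivic monodromy conjecture for flags of smooth complete intersections of forms of
different degrees.** Let `f_j` be forms of degrees `2 ≤ d_0 ≤ … ≤ d_(r-1)` in `n` variables such that
for every `o` the gradients of the `f_j`, `j ≤ o`, are linearly independent at their common zeros
`p ≠ 0`. Then the `f_j` satisfy the strong motivic monodromy conjecture at the origin with the pairs
`(-ν_o, d_o)`, `ν_o = n + ∑_(j ≤ o) (d_o - d_j)`, for the first `n` indices `o`, and `(-r, 1)` if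
`r < n`. -/
theorem result {n r : ℕ} (hn : 0 < n) (hr : 0 < r) (f : Fin r → MvPolynomial (Fin n) ℂ)
    (d : Fin r → ℕ) (hf : ∀ j, (f j).IsHomogeneous (d j)) (hd : ∀ j, 2 ≤ d j) (hm : Monotone d)
    (hF : Flag f) : StrongMC f (flagPairs n d) :=
  flag_strong hF hf hm hd hr hn

end Pool.Agent.Results.MP_4e5fcd_ag.FlagsOfForms
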